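import Pool.Agent.W223.AC.Stms

set_option autoImplicit false

namespace Pool.Agent.W976.AC.EX

open Polynomial Pool.Agent.W223.AC

theorem clear (q : ℚ[X]) : ∃ (d : ℤ) (q' : ℤ[X]), d ≠ 0 ∧
    q'.map (Int.castRingHom ℚ) = C (d : ℚ) * q := by
  obtain ⟨b, hb, hb'⟩ := IsLocalization.integerNormalization_spec (nonZeroDivisors ℤ) q
  refine ⟨b, IsLocalization.integerNormalization (nonZeroDivisors ℤ) q,
    nonZeroDivisors.ne_zero hb, ?_⟩
  have h1 : algebraMap ℤ ℚ = Int.castRingHom ℚ := RingHom.ext_int _ _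
  rw [h1] at hb'
  rw [hb']
  ext k
  rw [coeff_C_mul, coeff_smul]
  simp

theorem t (hD : StmtDIM) (hF : StmtFINQ) (hM : StmtMULT) : StmtEX := by
  intro A _ _ _ _ _ _ _
  have hinj : Function.Injective (algebraMap ℚ[X] A) := FaithfulSMul.algebraMap_injective _ _
  have : Module.IsTorsionFree ℚ[X] A := inferInstance
  have : Module.Free ℚ[X] A := inferInstance
  let b := Module.finBasis ℚ[X] A
  choose n hn hn' using fun i => hM A (b i)
  refine ⟨fun i => (n i : A) * b i, fun i => hn' i, ?_⟩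
  intro I hI m D hlt
  have hfin : Module.Finite ℚ (A ⧸ I) := hF A I hI
  obtain ⟨hfm, hle⟩ := hD ℚ A I hI hfin m
  let Φ : (Fin (Module.finrank ℚ[X] A) → Polynomial.degreeLT ℚ (D + 1)) →ₗ[ℚ] A :=
    { toFun := fun p => ∑ i, algebraMap ℚ[X] A (p i : ℚ[X]) * ((n i : A) * b i)
      map_add' := by
        intro p q
        rw [← Finset.sum_add_distrib]
        refine Finset.sum_congr rfl fun i _ => ?_
        rw [Pi.add_apply, Submodule.coe_add, map_add, add_mul]
      map_smul' := by
        intro c p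
        rw [RingHom.id_apply, Finset.smul_sum]
        refine Finset.sum_congr rfl fun i _ => ?_
        rw [Pi.smul_apply, Submodule.coe_smul, ← smul_mul_assoc]
        congr 1
        exact map_smul (IsScalarTower.toAlgHom ℚ ℚ[X] A) c (p i : ℚ[X]) }
  have hΦ : ∀ p, Φ p = ∑ i, algebraMap ℚ[X] A (p i : ℚ[X]) * ((n i : A) * b i) := fun _ => rfl
  let Ψ : (Fin (Module.finrank ℚ[X] A) → Polynomial.degreeLT ℚ (D + 1)) →ₗ[ℚ] A ⧸ I ^ m :=
    (Ideal.Quotient.mkₐ ℚ (I ^ m)).toLinearMap ∘ₗ Φ
  have hdim : Module.finrank ℚ (Fin (Module.finrank ℚ[X] A) → Polynomial.degreeLT ℚ (D + 1)) =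
      Module.finrank ℚ[X] A * (D + 1) := by
    rw [Module.finrank_pi_fintype]
    have h1 : Module.finrank ℚ (Polynomial.degreeLT ℚ (D + 1)) = D + 1 := by
      rw [(Polynomial.degreeLTEquiv ℚ (D + 1)).finrank_eq, Module.finrank_fin_fun]
    rw [h1]
    simp
  have hker : LinearMap.ker Ψ ≠ ⊥ := by
    apply LinearMap.ker_ne_bot_of_finrank_lt
    rw [hdim]
    exact lt_of_le_of_lt hle hlt
  obtain ⟨p, hp, hp0⟩ := (Submodule.ne_bot_iff _).1 hker
  have hpm : Φ p ∈ I ^ m := by
    have h1 : Ψ p = 0 := hp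
    exact Ideal.Quotient.eq_zero_iff_mem.1 h1
  choose d q hd hq using fun i => clear (p i : ℚ[X])
  -- the common denominator
  let e : Fin (Module.finrank ℚ[X] A) → ℤ := fun i => ∏ j ∈ Finset.univ.erase i, d j
  let dd : ℤ := ∏ j, d j
  have hdd : dd ≠ 0 := Finset.prod_ne_zero_iff.2 fun j _ => hd j
  have hed : ∀ i, e i * d i = dd := fun i =>
    Finset.prod_erase_mul Finset.univ d (Finset.mem_univ i)
  have hpsi : ∀ i, psi A (C (e i) * q i) = algebraMap ℚ[X] A (C (dd : ℚ)) *
      algebraMap ℚ[X] A (p i : ℚ[X]) := by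
    intro i
    rw [psi, RingHom.comp_apply, coe_mapRingHom, Polynomial.map_mul, hq i, map_C, ← map_mul]
    congr 1
    rw [← mul_assoc, ← C_mul]
    congr 2
    rw [← hed i]
    push_cast
    rfl
  have hsum : ∑ i, psi A (C (e i) * q i) * ((n i : A) * b i) =
      algebraMap ℚ[X] A (C (dd : ℚ)) * Φ p := by
    rw [hΦ, Finset.mul_sum]
    refine Finset.sum_congr rfl fun i _ => ?_
    rw [hpsi i, mul_assoc]
  refine ⟨fun i => C (e i) * q i, fun i => ?_, ?_, ?_⟩
  · have h1 : (q i).natDegree ≤ D := by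
      have h2 : ((q i).map (Int.castRingHom ℚ)).natDegree = (q i).natDegree :=
        natDegree_map_eq_of_injective (RingHom.injective_int _) _
      rw [← h2, hq i]
      refine (natDegree_C_mul_le _ _).trans ?_
      have h3 := Polynomial.mem_degreeLT.1 (p i).2
      by_cases h4 : (p i : ℚ[X]) = 0
      · rw [h4]; simp
      · have h5 := (natDegree_lt_iff_degree_lt h4).2 h3
        omega
    exact (natDegree_C_mul_le _ _).trans h1
  · rw [hsum]
    exact Ideal.mul_mem_left _ _ hpm
  · rw [hsum]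
    refine mul_ne_zero ?_ ?_
    · rw [Ne, ← map_zero (algebraMap ℚ[X] A), hinj.eq_iff, C_eq_zero]
      exact_mod_cast hdd
    · intro h0
      apply hp0
      rw [hΦ] at h0
      have h1 : ∑ i, ((p i : ℚ[X]) * C (n i : ℚ)) • b i = 0 := by
        rw [← h0]
        refine Finset.sum_congr rfl fun i _ => ?_
        rw [Algebra.smul_def, map_mul, mul_assoc]
        congr 2
        simp
      have h2 := Fintype.linearIndependent_iff.1 b.linearIndependent _ h1
      funext i
      have h3 := h2 i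
      have h4 : (C (n i : ℚ) : ℚ[X]) ≠ 0 := by
        rw [Ne, C_eq_zero]
        exact_mod_cast hn i
      have h5 : (p i : ℚ[X]) = 0 := (mul_eq_zero.1 h3).resolve_right h4
      exact Subtype.ext h5

end Pool.Agent.W976.AC.EX
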